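import Mathlib
import Pool.Agent.Q50.SP.Four3

/-!
# A singular spectral pair with exactly two complete numbers

`IsSpectralPair μ Λ` and `IsCompleteNumber μ Λ t` are defined in `Pool.Agent.Q50.SP.PairDefs`.
The measure is the self-similar measure of the maps `x / 4`, `(x + 2) / 4`; the spectrum is a set of
integers glued from spectra `Λ_t`, one for each odd `t ≥ 3`, such that `t Λ_t` is not a spectrum.
-/

set_option autoImplicit false

namespace Pool.Agent.Results.MP_90e10c_an.TwoCompleteNumbers

open MeasureTheory Q50.SpectralPair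

/-- There is a spectral pair `(μ, Λ)` on the line, where the compactly supported probability
measure `μ` is singular with respect to Lebesgue measure and has no point masses, whose only
complete numbers are `1` and `-1`. -/
theorem result : ∃ (μ : Measure ℝ) (Λ : Set ℝ),
    IsProbabilityMeasure μ ∧ (∃ K : Set ℝ, IsCompact K ∧ μ Kᶜ = 0) ∧
    μ ⟂ₘ volume ∧ (∀ x : ℝ, μ {x} = 0) ∧
    IsSpectralPair μ Λ ∧ {t : ℝ | IsCompleteNumber μ Λ t} = {1, -1} := by
  refine ⟨Q50.SP.m4, Q50.SP.SR, inferInstance, ⟨_, Q50.SP.C4_compact, Q50.SP.C4_compl⟩,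
    Q50.SP.m4_singular, Q50.SP.m4_singleton_zero, ?_, ?_⟩
  · have h := Q50.SP.complete_one
    rw [IsCompleteNumber] at h
    simpa using h
  · ext t
    simp only [Set.mem_ofPred_eq, Set.mem_insert_iff, Set.mem_singleton_iff]
    constructor
    · exact Q50.SP.eq_of_complete
    · rintro (rfl | rfl)
      · exact Q50.SP.complete_one
      · exact Q50.SP.complete_neg_one

end Pool.Agent.Results.MP_90e10c_an.TwoCompleteNumbers
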